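import Mathlib
import Pool.Agent.H52Upg.Main

namespace Pool.Agent.Results.MP_bafe5d_lc.WeakGenerator

open Pool.Agent.H52Upg

/-- A two-dimensional cellular automaton: a finite state set `S` with at least two elements, a
distinguished state `zero`, a finite neighbourhood `N` in `ℤ × ℤ` and a local rule `f`. -/
structure CA2 where
  S : Type
  [finS : Fintype S]
  two_le_card : 2 ≤ Fintype.card S
  zero : S
  N : Finset (ℤ × ℤ)
  f : (N → S) → S

attribute [instance] CA2.finS

namespace CA2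

variable (A : CA2)

/-- The global map: `F(c)(v) = f((c(v+u))_{u in N})`. -/
def step (c : ℤ × ℤ → A.S) : ℤ × ℤ → A.S :=
  fun v => A.f (fun u => c (v + (u : ℤ × ℤ)))

/-- A configuration is finite if all but finitely many cells carry the state `zero`. -/
def IsFiniteConfig (c : ℤ × ℤ → A.S) : Prop := {v | c v ≠ A.zero}.Finite

/-- The pattern `p` with finite domain `D` appears in `c`: some translate of it does. -/
def Appears {D : Finset (ℤ × ℤ)} (p : D → A.S) (c : ℤ × ℤ → A.S) : Prop :=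
  ∃ w : ℤ × ℤ, ∀ d : D, c (w + (d : ℤ × ℤ)) = p d

/-- `(F, x)` is a weak universal pattern generator: `x` is finite and every finite pattern
appears in `F^n(x)` for some `n ≥ 0`. -/
def IsWeakUPG (x : ℤ × ℤ → A.S) : Prop :=
  A.IsFiniteConfig x ∧
    ∀ (D : Finset (ℤ × ℤ)) (p : D → A.S), ∃ n : ℕ, A.Appears p (A.step^[n] x)

end CA2

/-- the neighbourhood: the cell itself, its left, lower left and lower neighbours -/
def nbhd : Finset (ℤ × ℤ) := {(0, 0), (-1, 0), (-1, -1), (0, -1)}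

/-- the automaton -/
def theCA : CA2 where
  S := ZMod 5
  two_le_card := by decide
  zero := 0
  N := nbhd
  f := fun p => Phi (p ⟨(-1, 0), by decide⟩) (p ⟨(-1, -1), by decide⟩) (p ⟨(0, -1), by decide⟩)
    (p ⟨(0, 0), by decide⟩)

def seed : ℤ × ℤ → ZMod 5 := fun v => if v = (0, 0) then 2 else 0

theorem step_apply (c : ℤ × ℤ → ZMod 5) (i j : ℤ) :
    theCA.step c (i, j) = Phi (c (i - 1, j)) (c (i - 1, j - 1)) (c (i, j - 1)) (c (i, j)) := by
  show Phi (c ((i, j) + (-1, 0))) (c ((i, j) + (-1, -1))) (c ((i, j) + (0, -1))) (c ((i, j) + (0, 0)))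
    = _
  simp [sub_eq_add_neg]

/-- the orbit of the seed -/
def C (t : ℕ) : ℤ × ℤ → ZMod 5 := theCA.step^[t] seed

theorem C_zero : C 0 = seed := rfl

theorem C_succ (t : ℕ) (i j : ℤ) :
    C (t + 1) (i, j) = Phi (C t (i - 1, j)) (C t (i - 1, j - 1)) (C t (i, j - 1)) (C t (i, j)) := by
  have h := congrFun (Function.iterate_succ_apply' theCA.step t seed) (i, j)
  exact h.trans (step_apply _ i j)

theorem C_neg (t : ℕ) : ∀ i j : ℤ, i < 0 ∨ j < 0 → C t (i, j) = 0 := by
  induction t with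
  | zero =>
    intro i j h
    rw [C_zero]
    unfold seed
    rw [if_neg]
    intro h'
    simp only [Prod.mk.injEq] at h'
    omega
  | succ t ih =>
    intro i j h
    rw [C_succ, ih i j h]
    rcases h with h | h
    · rw [ih (i - 1) j (by omega), ih (i - 1) (j - 1) (by omega), ih i (j - 1) (by omega)]
      decide
    · rw [ih (i - 1) j (by omega), ih (i - 1) (j - 1) (by omega), ih i (j - 1) (by omega)]
      decide

theorem C_row0 (t : ℕ) : (C t (0, 0) = 2 ∨ C t (0, 0) = 3) ∧ ∀ a : ℤ, 0 < a → C t (a, 0) = 0 := by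
  induction t with
  | zero =>
    rw [C_zero]
    refine ⟨Or.inl (by simp [seed]), ?_⟩
    intro a ha
    unfold seed
    rw [if_neg]
    intro h'
    simp only [Prod.mk.injEq] at h'
    omega
  | succ t ih =>
    obtain ⟨h1, h2⟩ := ih
    constructor
    · rw [C_succ, C_neg t (0 - 1) 0 (by omega), C_neg t (0 - 1) (0 - 1) (by omega),
        C_neg t 0 (0 - 1) (by omega)]
      rcases h1 with h | h
      · right; rw [h]; decide
      · left; rw [h]; decide
    · intro a ha
      rw [C_succ, C_neg t (a - 1) (0 - 1) (by omega), C_neg t a (0 - 1) (by omega), h2 a ha]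
      rcases eq_or_lt_of_le (show (1 : ℤ) ≤ a by omega) with h | h
      · subst h
        have e : (1 : ℤ) - 1 = 0 := by norm_num
        rw [e]
        rcases h1 with h | h
        · rw [h]; decide
        · rw [h]; decide
      · rw [h2 (a - 1) (by omega)]; decide

theorem Phi_below_zero (l d z : Sym) : Phi l d 0 z = if l = 1 then z + 2 else -z := by
  simp [Phi]

theorem C_row1 (t : ℕ) : ∀ a : ℕ, C t ((a : ℤ), 1) = y t a := by
  induction t with
  | zero =>
    intro a
    rw [C_zero]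
    simp [seed, y]
  | succ t ih =>
    intro a
    rw [C_succ]
    cases a with
    | zero =>
      have h1 := (C_row0 t).1
      have h0 := ih 0
      simp only [Nat.cast_zero, zero_sub, sub_self] at h0 ⊢
      rw [h0, C_neg t (-1) 1 (by omega), C_neg t (-1) 0 (by omega)]
      show _ = y t 0 + 1
      generalize y t 0 = z
      rcases h1 with h | h
      · rw [h]; revert z; decide
      · rw [h]; revert z; decide
    | succ a =>
      have e : ((a + 1 : ℕ) : ℤ) - 1 = (a : ℤ) := by push_cast; ring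
      have e2 : (1 : ℤ) - 1 = 0 := by norm_num
      rw [e, e2, (C_row0 t).2 ((a + 1 : ℕ) : ℤ) (by positivity), ih a, ih (a + 1), Phi_below_zero,
        y_succ]

theorem C_hist : IsHist (fun t a j => C t ((a : ℤ), (j : ℤ) + 1)) where
  ctl t a := by
    have e : ((a + 1 : ℕ) : ℤ) - 1 = (a : ℤ) := by push_cast; ring
    have e2 : ((0 : ℕ) : ℤ) + 1 - 1 = 0 := by norm_num
    rw [C_succ, e, e2, (C_row0 t).2 ((a + 1 : ℕ) : ℤ) (by positivity), Phi_below_zero]
  row t a j := by
    have e : ((a + 1 : ℕ) : ℤ) - 1 = (a : ℤ) := by push_cast; ring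
    have e2 : ((j + 1 : ℕ) : ℤ) + 1 - 1 = (j : ℤ) + 1 := by push_cast; ring
    rw [C_succ, e, e2]

theorem rows_universal (k L : ℕ) (P : ℕ → ℕ → ZMod 5) : ∃ t A : ℕ, ∀ a j : ℕ, a < L → j < k →
    C t ((A : ℤ) + a, (j : ℤ) + 2) = P a j := by
  obtain ⟨t, A, h⟩ := uni C_hist (fun t a => by
    simp only [Nat.cast_zero, zero_add]; exact C_row1 t a) k L (fun _ => false) P
  refine ⟨t, A, fun a j ha hj => ?_⟩
  have := (h a ha).2 j hj
  rw [← this]
  push_cast
  congr 2

theorem pattern_appears (D : Finset (ℤ × ℤ)) (p : D → ZMod 5) :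
    ∃ (t : ℕ) (w : ℤ × ℤ), ∀ d : D, C t (w + (d : ℤ × ℤ)) = p d := by
  -- a box containing the domain
  obtain ⟨R, hR⟩ : ∃ R : ℕ, ∀ d ∈ D, |d.1| ≤ (R : ℤ) ∧ |d.2| ≤ (R : ℤ) := by
    refine ⟨D.sup (fun d => d.1.natAbs + d.2.natAbs), ?_⟩
    intro d hd
    have h : d.1.natAbs + d.2.natAbs ≤ D.sup (fun d : ℤ × ℤ => d.1.natAbs + d.2.natAbs) :=
      Finset.le_sup (f := fun d : ℤ × ℤ => d.1.natAbs + d.2.natAbs) hd
    rw [Int.abs_eq_natAbs, Int.abs_eq_natAbs]
    constructor <;> omega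
  let P : ℕ → ℕ → ZMod 5 := fun a j =>
    if h : (((a : ℤ) - R, (j : ℤ) - R) : ℤ × ℤ) ∈ D then p ⟨_, h⟩ else 0
  obtain ⟨t, A, hA⟩ := rows_universal (2 * R + 1) (2 * R + 1) P
  refine ⟨t, ((A : ℤ) + R, (R : ℤ) + 2), ?_⟩
  rintro ⟨⟨d1, d2⟩, hd⟩
  obtain ⟨h1, h2⟩ := hR _ hd
  rw [abs_le] at h1 h2
  simp only at h1 h2
  obtain ⟨a, ha⟩ : ∃ a : ℕ, (a : ℤ) = d1 + R := ⟨(d1 + R).toNat, by omega⟩
  obtain ⟨j, hj⟩ : ∃ j : ℕ, (j : ℤ) = d2 + R := ⟨(d2 + R).toNat, by omega⟩
  have key := hA a j (by omega) (by omega)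
  have e1 : (A : ℤ) + a = A + R + d1 := by omega
  have e2 : (j : ℤ) + 2 = R + 2 + d2 := by omega
  rw [e1, e2] at key
  show C t ((A : ℤ) + R + d1, (R : ℤ) + 2 + d2) = _
  rw [key]
  have e3 : (((a : ℤ) - R, (j : ℤ) - R) : ℤ × ℤ) = (d1, d2) := by
    rw [ha, hj]; simp
  have hm : (((a : ℤ) - R, (j : ℤ) - R) : ℤ × ℤ) ∈ D := by rw [e3]; exact hd
  show (if h : (((a : ℤ) - R, (j : ℤ) - R) : ℤ × ℤ) ∈ D then p ⟨_, h⟩ else 0) = _
  rw [dif_pos hm]
  congr 1
  exact Subtype.ext e3

/-- There is a two-dimensional cellular automaton with five states, whose neighbourhood consists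
of the cell itself and its left, lower left and lower neighbours, with quiescent distinguished
state, and a configuration with a single non-zero cell which together form a weak universal
pattern generator. -/
theorem result : ∃ (A : CA2) (x : ℤ × ℤ → A.S),
    A.IsWeakUPG x ∧
    A.step (fun _ => A.zero) = (fun _ => A.zero) ∧
    Fintype.card A.S = 5 ∧
    A.N = {(0, 0), (-1, 0), (-1, -1), (0, -1)} ∧
    (∃ v, x v ≠ A.zero ∧ ∀ u, u ≠ v → x u = A.zero) := by
  refine ⟨theCA, seed, ⟨?_, ?_⟩, ?_, rfl, rfl, ?_⟩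
  · refine (Set.finite_singleton ((0, 0) : ℤ × ℤ)).subset ?_
    intro v hv
    by_contra h
    apply hv
    show seed v = 0
    unfold seed
    rw [if_neg]
    exact h
  · intro D p
    exact pattern_appears D p
  · funext v
    show Phi 0 0 0 0 = 0
    decide
  · refine ⟨(0, 0), ?_, ?_⟩
    · show seed (0, 0) ≠ 0
      simp [seed]
      decide
    · intro u hu
      show seed u = 0
      simp [seed, hu]

end Pool.Agent.Results.MP_bafe5d_lc.WeakGenerator
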